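import Pool.Agent.N422.NWS.Stm

/-! Project NWS (helper422, helper136), package MPOL: polynomials for all sites. -/

set_option autoImplicit false

open Finset

namespace Pool.Agent.U221.NWS

open Pool.Agent.N422.NW Pool.Agent.N422.NWS

/-- `z ^ d * h z` is a polynomial away from `0` -/
def Good (d : ℕ) (h : ℂ → ℂ) : Prop := ∃ P : Polynomial ℂ, ∀ z : ℂ, z ≠ 0 → P.eval z = z ^ d * h z

theorem Good.mono {d e : ℕ} {h : ℂ → ℂ} (H : Good d h) (hde : d ≤ e) : Good e h := by
  obtain ⟨P, hP⟩ := H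
  refine ⟨Polynomial.X ^ (e - d) * P, fun z hz => ?_⟩
  have : z ^ e = z ^ (e - d) * z ^ d := by rw [← pow_add, Nat.sub_add_cancel hde]
  simp [hP z hz, this, mul_assoc]

theorem Good.zero (d : ℕ) : Good d (fun _ => 0) := ⟨0, fun z _ => by simp⟩

theorem Good.one : Good 0 (fun _ => 1) := ⟨1, fun z _ => by simp⟩

theorem Good.smul {d : ℕ} {h : ℂ → ℂ} (a : ℂ) (H : Good d h) : Good d (fun z => a * h z) := by
  obtain ⟨P, hP⟩ := H
  exact ⟨Polynomial.C a * P, fun z hz => by simp [hP z hz]; ring⟩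

theorem Good.add {d : ℕ} {h g : ℂ → ℂ} (H : Good d h) (G : Good d g) : Good d (fun z => h z + g z) := by
  obtain ⟨P, hP⟩ := H
  obtain ⟨Q, hQ⟩ := G
  exact ⟨P + Q, fun z hz => by simp [hP z hz, hQ z hz]; ring⟩

theorem Good.mul {d e : ℕ} {h g : ℂ → ℂ} (H : Good d h) (G : Good e g) : Good (d + e) (fun z => h z * g z) := by
  obtain ⟨P, hP⟩ := H
  obtain ⟨Q, hQ⟩ := G
  exact ⟨P * Q, fun z hz => by simp [hP z hz, hQ z hz, pow_add]; ring⟩

theorem Good.sum {ι : Type} {d : ℕ} (s : Finset ι) (h : ι → ℂ → ℂ) (H : ∀ x ∈ s, Good d (h x)) :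
    Good d (fun z => ∑ x ∈ s, h x z) := by
  classical
  induction s using Finset.induction_on with
  | empty => simpa using Good.zero d
  | insert a s ha ih =>
    simp only [Finset.sum_insert ha]
    exact (H a (by simp)).add (ih fun x hx => H x (by simp [hx]))

theorem Good.prod {ι : Type} (s : Finset ι) (d : ι → ℕ) (h : ι → ℂ → ℂ) (H : ∀ x ∈ s, Good (d x) (h x)) :
    Good (∑ x ∈ s, d x) (fun z => ∏ x ∈ s, h x z) := by
  classical
  induction s using Finset.induction_on with
  | empty => simpa using Good.one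
  | insert a s ha ih =>
    simp only [Finset.sum_insert ha, Finset.prod_insert ha]
    exact (H a (by simp)).mul (ih fun x hx => H x (by simp [hx]))

/-- coefficients of `lam` in the indicators -/
def coef {k : ℕ} : Option (Fin k) → Option (Fin k) → ℝ
  | some a, some b => if a = b then 1 else 0
  | some _, none => 0
  | none, some _ => -1
  | none, none => 1

/-- indicators -/
noncomputable def chi {N k : ℕ} (ω : Fin k → Finset (Fin N)) (i : Fin N) : Option (Fin k) → ℝ
  | some a => if i ∈ ω a then 1 else 0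
  | none => 1

theorem lam_eq {N k : ℕ} (ω : Fin k → Finset (Fin N)) (i : Fin N) (b : Option (Fin k)) :
    lam ω i b = ∑ d, coef b d * chi ω i d := by
  rw [Fintype.sum_option]
  cases b with
  | none =>
    simp only [lam, coef, chi, one_mul, neg_mul, Finset.sum_neg_distrib]
    rw [Finset.card_eq_sum_ones, Nat.cast_sum, Finset.sum_filter]
    simp [sub_eq_add_neg]
  | some a =>
    simp only [lam, coef, chi, zero_mul, zero_add]
    rw [Finset.sum_eq_single a]
    · simp
    · intro b _ hb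
      simp [Ne.symm hb]
    · simp

theorem prod_lam {N k : ℕ} (ω : Fin k → Finset (Fin N)) (γ' : St N k) :
    ∏ i, lam ω i (γ' i) = ∑ c : St N k, (∏ i, coef (γ' i) (c i)) * ∏ i, chi ω i (c i) := by
  simp only [lam_eq]
  rw [Finset.prod_univ_sum]
  simp only [Fintype.piFinset_univ, Finset.prod_mul_distrib]

theorem prod_chi {N k : ℕ} (ω : Fin k → Finset (Fin N)) (c : St N k) :
    ∏ i, chi ω i (c i) = ∏ a, (if Ta c a ⊆ ω a then (1 : ℝ) else 0) := by
  classical
  by_cases h : ∀ a, Ta c a ⊆ ω a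
  · rw [Finset.prod_eq_one, Finset.prod_eq_one]
    · intro a _
      rw [if_pos (h a)]
    · intro i _
      cases hc : c i with
      | none => rfl
      | some a =>
        have : i ∈ ω a := h a (by simp [Ta, hc])
        simp [chi, this]
  · push Not at h
    obtain ⟨a, ha⟩ := h
    rw [Finset.prod_eq_zero (i := a) (Finset.mem_univ a) (if_neg ha)]
    obtain ⟨i, hi, hia⟩ := Finset.not_subset.1 ha
    refine Finset.prod_eq_zero (i := i) (Finset.mem_univ i) ?_
    have hc : c i = some a := by simpa [Ta] using hi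
    simp [hc, chi, hia]

theorem sum_omega {N k : ℕ} (K : Finset (Fin N) → Finset (Fin N) → ℂ) (γ c : St N k) :
    ∑ ω : Fin k → Finset (Fin N), (∏ a, K (Ta γ a) (ω a)) * ((∏ i, chi ω i (c i) : ℝ) : ℂ) =
      ∏ a, ∑ T' ∈ univ.filter (fun T' : Finset (Fin N) => Ta c a ⊆ T'), K (Ta γ a) T' := by
  simp only [Finset.sum_filter]
  rw [Finset.prod_univ_sum]
  simp only [Fintype.piFinset_univ]
  refine Finset.sum_congr rfl fun ω _ => ?_
  rw [prod_chi, Complex.ofReal_prod, ← Finset.prod_mul_distrib]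
  refine Finset.prod_congr rfl fun a _ => ?_
  split_ifs <;> simp

/-- the sum over the new states against the coefficients vanishes for patterns leaving `S` -/
theorem coef_sum_zero {N k : ℕ} (S : Finset (Fin N)) (g : St N k → ℝ)
    (hg : ∀ γ γ' : St N k, (∀ i ∈ S, γ i = γ' i) → g γ = g γ') (c : St N k) (i0 : Fin N) (hi : i0 ∉ S)
    (hc : c i0 ≠ none) : ∑ γ' : St N k, (∏ i, coef (γ' i) (c i)) * g γ' = 0 := by
  classical
  obtain ⟨a0, ha0⟩ := Option.ne_none_iff_exists'.1 hc
  -- the involution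
  let sw : Option (Fin k) → Option (Fin k) := fun b => if b = some a0 then none else if b = none then some a0 else b
  have sw_sw : ∀ b, sw (sw b) = b := by
    intro b
    simp only [sw]
    split_ifs <;> simp_all
  let σ : St N k → St N k := fun γ' => Function.update γ' i0 (sw (γ' i0))
  have hσ0 : ∀ γ', σ γ' i0 = sw (γ' i0) := fun γ' => by simp [σ]
  have hσ1 : ∀ γ' i, i ≠ i0 → σ γ' i = γ' i := fun γ' i h => by simp [σ, h]
  have hcz : ∀ b : Option (Fin k), coef b (some a0) + coef (sw b) (some a0) = 0 := by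
    intro b
    rcases b with _ | b
    · simp [sw, coef]
    · by_cases hb : b = a0
      · subst hb
        simp [sw, coef]
      · simp [sw, coef, hb]
  have hsplit : ∀ γ' : St N k, ∏ i, coef (γ' i) (c i) =
      coef (γ' i0) (some a0) * ∏ i ∈ univ.erase i0, coef (γ' i) (c i) := by
    intro γ'
    rw [← Finset.mul_prod_erase univ _ (Finset.mem_univ i0), ha0]
  have hrest : ∀ γ' : St N k, ∏ i ∈ univ.erase i0, coef (σ γ' i) (c i) = ∏ i ∈ univ.erase i0, coef (γ' i) (c i) := by
    intro γ'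
    refine Finset.prod_congr rfl fun i hi => ?_
    rw [hσ1 γ' i (Finset.ne_of_mem_erase hi)]
  have hgσ : ∀ γ' : St N k, g (σ γ') = g γ' := by
    intro γ'
    refine hg _ _ fun i hiS => hσ1 γ' i ?_
    rintro rfl
    exact hi hiS
  refine Finset.sum_involution (fun γ' _ => σ γ') ?_ ?_ ?_ ?_
  · intro γ' _
    rw [hsplit γ', hsplit (σ γ'), hrest, hgσ, hσ0]
    linear_combination (∏ i ∈ univ.erase i0, coef (γ' i) (c i)) * g γ' * hcz (γ' i0)
  · intro γ' _ hne heq
    apply hne
    have h1 : sw (γ' i0) = γ' i0 := by rw [← hσ0, heq]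
    rw [hsplit γ']
    have h2 := hcz (γ' i0)
    rw [h1] at h2
    have h3 : coef (γ' i0) (some a0) = 0 := by linarith
    rw [h3]
    ring
  · intro γ' _
    exact Finset.mem_univ _
  · intro γ' _
    funext i
    by_cases h : i = i0
    · subst h
      rw [hσ0, hσ0, sw_sw]
    · rw [hσ1 _ _ h, hσ1 _ _ h]

theorem sum_Ta {N k : ℕ} (ν : Fin N → ℕ) (c : St N k) (S : Finset (Fin N)) (h : ∀ i, c i ≠ none → i ∈ S) :
    ∑ a, ∑ i ∈ Ta c a, ν i ≤ ∑ i ∈ S, ν i := by
  classical
  have hd : Set.PairwiseDisjoint ((univ : Finset (Fin k)) : Set (Fin k)) (fun a => Ta c a) := by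
    intro a _ b _ hab
    refine Finset.disjoint_left.2 fun i hi hj => hab ?_
    simp only [Ta, Finset.mem_filter, Finset.mem_univ, true_and] at hi hj
    rw [hi] at hj
    exact Option.some.inj hj
  rw [← Finset.sum_biUnion hd]
  refine Finset.sum_le_sum_of_subset fun i hi => ?_
  simp only [Finset.mem_biUnion, Finset.mem_univ, true_and, Ta, Finset.mem_filter] at hi
  obtain ⟨a, ha⟩ := hi
  exact h i (by simp [ha])

theorem t_MPOL : S_MPOL := by
  classical
  intro N k n ν f hf K hK γ
  obtain ⟨m, S, g, hS, hg, hfg⟩ := hf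
  -- one function
  have hone : ∀ x : Fin m, Good n (fun z => ∑ γ', KX (K z) γ γ' * (g x γ' : ℂ)) := by
    intro x
    have hexp : ∀ z : ℂ, ∑ γ', KX (K z) γ γ' * (g x γ' : ℂ) =
        ∑ c : St N k, ((∑ γ' : St N k, (∏ i, coef (γ' i) (c i)) * g x γ' : ℝ) : ℂ) *
          ∏ a, ∑ T' ∈ univ.filter (fun T' : Finset (Fin N) => Ta c a ⊆ T'), K z (Ta γ a) T' := by
      intro z
      simp only [← sum_omega]
      simp only [KX, prod_lam]
      have e1 : ∀ γ' : St N k, (∑ ω : Fin k → Finset (Fin N), (∏ a, K z (Ta γ a) (ω a)) *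
          ((∑ c : St N k, (∏ i, coef (γ' i) (c i)) * ∏ i, chi ω i (c i) : ℝ) : ℂ)) * (g x γ' : ℂ) =
          ∑ c : St N k, ∑ ω : Fin k → Finset (Fin N), (((∏ i, coef (γ' i) (c i)) * g x γ' : ℝ) : ℂ) *
            ((∏ a, K z (Ta γ a) (ω a)) * ((∏ i, chi ω i (c i) : ℝ) : ℂ)) := by
        intro γ'
        rw [Finset.sum_mul, Finset.sum_comm]
        refine Finset.sum_congr rfl fun ω _ => ?_
        rw [Complex.ofReal_sum, Finset.mul_sum, Finset.sum_mul]
        refine Finset.sum_congr rfl fun c _ => ?_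
        push_cast
        ring
      rw [Finset.sum_congr rfl fun γ' _ => e1 γ', Finset.sum_comm]
      refine Finset.sum_congr rfl fun c _ => ?_
      rw [Complex.ofReal_sum, Finset.sum_mul]
      refine Finset.sum_congr rfl fun γ' _ => ?_
      rw [Finset.mul_sum]
    simp only [hexp]
    refine Good.sum _ _ fun c _ => ?_
    by_cases hc : ∀ i, c i ≠ none → i ∈ S x
    · have hp := Good.prod (univ : Finset (Fin k)) (fun a => ∑ i ∈ Ta c a, ν i)
        (fun a z => ∑ T' ∈ univ.filter (fun T' : Finset (Fin N) => Ta c a ⊆ T'), K z (Ta γ a) T')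
        (fun a _ => hK (Ta γ a) (Ta c a))
      exact (hp.mono ((sum_Ta ν c (S x) hc).trans (hS x))).smul _
    · push Not at hc
      obtain ⟨i0, h1, h2⟩ := hc
      rw [coef_sum_zero (S x) (g x) (hg x) c i0 h2 h1]
      simpa using Good.zero n
  have := Good.sum (univ : Finset (Fin m)) _ fun x _ => hone x
  have e : (fun z => ∑ γ', KX (K z) γ γ' * (f γ' : ℂ)) =
      fun z => ∑ x, ∑ γ', KX (K z) γ γ' * (g x γ' : ℂ) := by
    funext z
    rw [Finset.sum_comm]
    refine Finset.sum_congr rfl fun γ' _ => ?_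
    rw [hfg, Complex.ofReal_sum, Finset.mul_sum]
  change Good n (fun z => ∑ γ', KX (K z) γ γ' * (f γ' : ℂ))
  rw [e]
  exact this

end Pool.Agent.U221.NWS
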